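import Pool.Agent.Run7.h325.RSI.Stm

/-! # Rough singular integrals: piece LAM -/

set_option autoImplicit false

namespace Run7.h930.RSI.LAM

open MeasureTheory Filter Topology Metric Pool.Agent.Run7.h325.RSI
open scoped BoundedContinuousFunction

lemma ann_lt : volume Ann < ⊤ := by
  refine lt_of_le_of_lt (measure_mono ?_) (measure_ball_lt_top (x := (0 : E2)) (r := 2))
  intro y hy
  rw [mem_ball, dist_zero_right]
  exact hy.2

lemma meas_dir (F : E2 →ᵇ ℝ) : Measurable fun y : E2 => F (‖y‖⁻¹ • y) :=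
  F.continuous.measurable.comp (measurable_norm.inv.smul measurable_id)

lemma int_ann (F : E2 →ᵇ ℝ) : IntegrableOn (fun y : E2 => F (‖y‖⁻¹ • y)) Ann := by
  have : IsFiniteMeasure (volume.restrict Ann) := ⟨by
    rw [Measure.restrict_apply_univ]; exact ann_lt⟩
  refine Integrable.of_bound (meas_dir F).aestronglyMeasurable ‖F‖ ?_
  exact Filter.Eventually.of_forall fun y => F.norm_coe_le_norm _

lemma mean_add (F G : E2 →ᵇ ℝ) : mean (F + G : E2 →ᵇ ℝ) = mean F + mean G := by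
  unfold mean
  rw [← add_div, ← integral_add (int_ann F) (int_ann G)]
  rfl

lemma mean_smul (c : ℝ) (F : E2 →ᵇ ℝ) : mean (c • F : E2 →ᵇ ℝ) = c * mean F := by
  unfold mean
  rw [← mul_div_assoc, ← integral_const_mul]
  rfl

lemma mean_le (F : E2 →ᵇ ℝ) : |mean F| ≤ ‖F‖ := by
  have h1 : ‖∫ y in Ann, F (‖y‖⁻¹ • y)‖ ≤ ‖F‖ * (volume.real Ann) :=
    norm_setIntegral_le_of_norm_le_const ann_lt fun y _ => F.norm_coe_le_norm _
  unfold mean
  rw [abs_div]
  have h2 : (0 : ℝ) ≤ (volume Ann).toReal := ENNReal.toReal_nonneg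
  rw [abs_of_nonneg h2]
  exact div_le_of_le_mul₀ h2 (norm_nonneg _) h1

section

variable (m : ℕ) (φ : E2 → ℝ)

/-- the kernel -/
noncomputable def Kr (F : E2 → ℝ) (x y : E2) : ℝ :=
  bb y * ff m φ y * (F (‖x - y‖⁻¹ • (x - y)) - mean F) / ‖x - y‖ ^ 2

lemma kr_add (F G : E2 →ᵇ ℝ) (x y : E2) :
    Kr m φ (F + G : E2 →ᵇ ℝ) x y = Kr m φ F x y + Kr m φ G x y := by
  unfold Kr
  rw [mean_add, BoundedContinuousFunction.coe_add, Pi.add_apply]
  ring

lemma kr_smul (c : ℝ) (F : E2 →ᵇ ℝ) (x y : E2) :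
    Kr m φ (c • F : E2 →ᵇ ℝ) x y = c * Kr m φ F x y := by
  unfold Kr
  rw [mean_smul, BoundedContinuousFunction.coe_smul]
  simp only [smul_eq_mul]
  ring

end

theorem t_LAM : S_BBP → S_FFP → S_DIR → S_WM → S_LAM := by
  intro hBBP hFFP hDIR hWM m φ hm hφ
  obtain ⟨-, -, hbm, -, -, hbi⟩ := hBBP m φ hm hφ
  obtain ⟨hfs, -, -, hfp⟩ := hFFP m φ hm hφ
  have hfm : Measurable (ff m φ) := hfs.continuous.measurable
  have hjm : ∀ F : E2 →ᵇ ℝ, Measurable (Function.uncurry (Kr m φ F)) := by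
    intro F
    have e1 : Measurable fun p : E2 × E2 => p.1 - p.2 := measurable_fst.sub measurable_snd
    have e2 : Measurable fun p : E2 × E2 => F (‖p.1 - p.2‖⁻¹ • (p.1 - p.2)) :=
      (meas_dir F).comp e1
    exact (((hbm.comp measurable_snd).mul (hfm.comp measurable_snd)).mul
      (e2.sub_const _)).div ((e1.norm).pow_const 2)
  have hdist : ∀ x ∈ SS m, ∀ y, ff m φ y ≠ 0 → 1 / 2 ≤ ‖x - y‖ := by
    intro x hx y hy
    obtain ⟨I, hI, -, hI2⟩ := hfp y hy
    simp only [SS, Set.mem_iUnion, mem_ball] at hx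
    obtain ⟨J, hJ, hJ2⟩ := hx
    exact (hDIR m I J x y hm hI hJ (by rw [← dist_eq_norm]; exact hJ2.le) hI2).2.1
  have hbd : ∀ (F : E2 →ᵇ ℝ), ∀ x ∈ SS m, ∀ y,
      ‖Kr m φ F x y‖ ≤ ‖bb y * ff m φ y‖ * (8 * ‖F‖) := by
    intro F x hx y
    by_cases hy : ff m φ y = 0
    · unfold Kr
      rw [hy]
      simp
    · have h1 := hdist x hx y hy
      have h2 : ‖F (‖x - y‖⁻¹ • (x - y)) - mean F‖ ≤ 2 * ‖F‖ := by
        refine (norm_sub_le _ _).trans ?_
        have := F.norm_coe_le_norm (‖x - y‖⁻¹ • (x - y))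
        have := mean_le F
        rw [Real.norm_eq_abs (mean F)]
        linarith
      have h3 : ‖Kr m φ F x y‖ = ‖bb y * ff m φ y‖ *
          (‖F (‖x - y‖⁻¹ • (x - y)) - mean F‖ / ‖x - y‖ ^ 2) := by
        unfold Kr
        rw [norm_div, norm_mul, norm_pow, norm_norm, mul_div_assoc]
      rw [h3]
      apply mul_le_mul_of_nonneg_left _ (norm_nonneg _)
      rw [div_le_iff₀ (by positivity)]
      have h4 : 1 / 4 ≤ ‖x - y‖ ^ 2 := by nlinarith
      have h5 : (0 : ℝ) ≤ ‖F‖ := norm_nonneg _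
      nlinarith
  have hin : ∀ (F : E2 →ᵇ ℝ), ∀ x ∈ SS m, Integrable (fun y => Kr m φ F x y) := by
    intro F x hx
    refine Integrable.mono' (hbi.norm.mul_const (8 * ‖F‖)) ?_ (Filter.Eventually.of_forall
      (hbd F x hx))
    exact ((hjm F).comp (measurable_const.prodMk measurable_id)).aestronglyMeasurable
  let H : ℝ := ∫ y, ‖bb y * ff m φ y‖
  have hJ : ∀ (F : E2 →ᵇ ℝ), ∀ x ∈ SS m, ‖∫ y, Kr m φ F x y‖ ≤ H * (8 * ‖F‖) := by
    intro F x hx
    refine (norm_integral_le_integral_norm _).trans ?_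
    rw [← integral_mul_const]
    exact integral_mono (hin F x hx).norm (hbi.norm.mul_const _) (hbd F x hx)
  have hSm : MeasurableSet (SS m) := by
    refine Finset.measurableSet_biUnion _ fun p _ => measurableSet_ball
  have hwi : IntegrableOn (wt m) (SS m) := by
    unfold SS
    rw [integrableOn_finset_iUnion]
    exact fun p _ => (hWM m p hm).1
  have hout : ∀ (F : E2 →ᵇ ℝ), IntegrableOn (fun x => (∫ y, Kr m φ F x y) * wt m x) (SS m) := by
    intro F
    refine Integrable.mono' (hwi.norm.const_mul (H * (8 * ‖F‖))) ?_ ?_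
    · refine AEStronglyMeasurable.mul ?_ hwi.aestronglyMeasurable
      exact ((hjm F).stronglyMeasurable.integral_prod_right).aestronglyMeasurable
    · refine ae_restrict_of_forall_mem hSm fun x hx => ?_
      rw [norm_mul]
      exact mul_le_mul_of_nonneg_right (hJ F x hx) (norm_nonneg _)
  have hLam : ∀ F : E2 →ᵇ ℝ, Lam m φ F = ∫ x in SS m, (∫ y, Kr m φ F x y) * wt m x :=
    fun F => rfl
  let Λ₀ : (E2 →ᵇ ℝ) →ₗ[ℝ] ℝ :=
    { toFun := fun F => Lam m φ F
      map_add' := by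
        intro F G
        show Lam m φ (F + G : E2 →ᵇ ℝ) = Lam m φ F + Lam m φ G
        rw [hLam, hLam, hLam, ← integral_add (hout F) (hout G)]
        refine setIntegral_congr_fun hSm fun x hx => ?_
        show (∫ y, Kr m φ (F + G : E2 →ᵇ ℝ) x y) * wt m x =
          (∫ y, Kr m φ F x y) * wt m x + (∫ y, Kr m φ G x y) * wt m x
        rw [← add_mul, ← integral_add (hin F x hx) (hin G x hx)]
        simp only [kr_add]
      map_smul' := by
        intro c F
        show Lam m φ (c • F : E2 →ᵇ ℝ) = c • Lam m φ F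
        rw [hLam, hLam, smul_eq_mul, ← integral_const_mul]
        refine setIntegral_congr_fun hSm fun x hx => ?_
        show (∫ y, Kr m φ (c • F : E2 →ᵇ ℝ) x y) * wt m x = c * ((∫ y, Kr m φ F x y) * wt m x)
        rw [← mul_assoc, ← integral_const_mul]
        simp only [kr_smul] }
  refine ⟨Λ₀.mkContinuous (H * 8 * ∫ x in SS m, ‖wt m x‖) (fun F => ?_), fun F => rfl⟩
  show ‖Lam m φ F‖ ≤ _
  rw [hLam]
  refine (norm_integral_le_integral_norm _).trans ?_
  have h1 : ∫ x in SS m, ‖(∫ y, Kr m φ F x y) * wt m x‖ ≤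
      ∫ x in SS m, (H * (8 * ‖F‖)) * ‖wt m x‖ := by
    refine setIntegral_mono_on (hout F).norm (hwi.norm.const_mul _) hSm fun x hx => ?_
    rw [norm_mul]
    exact mul_le_mul_of_nonneg_right (hJ F x hx) (norm_nonneg _)
  refine h1.trans (le_of_eq ?_)
  rw [integral_const_mul]
  ring

end Run7.h930.RSI.LAM
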