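import Pool.Agent.Run7.h325.RSI.Stm

/-! # Rough singular integrals: piece MASS -/

set_option autoImplicit false

namespace Run7.h930.RSI.MASS

open MeasureTheory Filter Topology Metric Pool.Agent.Run7.h325.RSI

theorem t_MASS : S_RAD → S_MASS := by
  intro hR m φ hm hφ
  have hc : Continuous φ := hφ.smooth.continuous
  have hs : HasCompactSupport φ := by
    refine HasCompactSupport.intro (isCompact_closedBall (0 : E2) (rho m)) fun x hx => ?_
    by_contra h
    apply hx
    rw [mem_closedBall, dist_zero_right]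
    exact (hφ.supp x h).2
  have hi : Integrable φ := hc.integrable_of_hasCompactSupport hs
  refine ⟨hc, hs, hi, ?_⟩
  have hrho : 0 < rho m := by unfold rho hh; positivity
  have hrho' : 0 < rho' m := by unfold rho'; positivity
  let a : ℝ := 2 * rho' m
  let b : ℝ := rho m / 2
  have ha : 0 < a := by positivity
  have hb : 0 < b := by positivity
  have hba : b / a = Real.exp ((m : ℝ) ^ 4) := by
    show rho m / 2 / (2 * rho' m) = _
    unfold rho'
    rw [Real.exp_neg]
    have h1 : Real.exp ((m : ℝ) ^ 4) ≠ 0 := (Real.exp_pos _).ne'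
    field_simp
    ring
  have hab : a ≤ b := by
    have h1 : 1 ≤ b / a := by
      rw [hba]
      exact Real.one_le_exp (by positivity)
    rwa [one_le_div ha] at h1
  let g : ℝ → ℝ := (Set.Icc a b).indicator fun r => r0 m ^ 2 / r ^ 2
  have hle : ∀ x : E2, g ‖x‖ ≤ φ x := by
    intro x
    by_cases hx : ‖x‖ ∈ Set.Icc a b
    · show (Set.Icc a b).indicator (fun r => r0 m ^ 2 / r ^ 2) ‖x‖ ≤ φ x
      rw [Set.indicator_of_mem hx, hφ.eq x hx.1 hx.2]
    · show (Set.Icc a b).indicator (fun r => r0 m ^ 2 / r ^ 2) ‖x‖ ≤ φ x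
      rw [Set.indicator_of_notMem hx]
      exact hφ.nonneg x
  have hg0 : ∀ r, 0 ≤ g r := by
    intro r
    apply Set.indicator_nonneg
    intro r _
    positivity
  have h1 : ∫ x : E2, g ‖x‖ ≤ ∫ x, φ x :=
    integral_mono_of_nonneg (Filter.Eventually.of_forall fun x => hg0 _) hi
      (Filter.Eventually.of_forall hle)
  refine le_trans (le_of_eq ?_) h1
  rw [hR.1 g]
  have h2 : ∫ r in Set.Ioi (0 : ℝ), r * g r = r0 m ^ 2 * (m : ℝ) ^ 4 := by
    have e1 : (fun r => r * g r) =
        (Set.Icc a b).indicator fun r => r * (r0 m ^ 2 / r ^ 2) := by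
      funext r
      by_cases hr : r ∈ Set.Icc a b
      · show r * (Set.Icc a b).indicator (fun r => r0 m ^ 2 / r ^ 2) r = _
        rw [Set.indicator_of_mem hr, Set.indicator_of_mem hr]
      · show r * (Set.Icc a b).indicator (fun r => r0 m ^ 2 / r ^ 2) r = _
        rw [Set.indicator_of_notMem hr, Set.indicator_of_notMem hr, mul_zero]
    have e2 : Set.Ioi (0 : ℝ) ∩ Set.Icc a b = Set.Icc a b := by
      apply Set.inter_eq_right.mpr
      intro r hr
      exact lt_of_lt_of_le ha hr.1
    rw [e1, setIntegral_indicator measurableSet_Icc, e2, integral_Icc_eq_integral_Ioc,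
      ← intervalIntegral.integral_of_le hab]
    have e3 : ∫ r in a..b, r * (r0 m ^ 2 / r ^ 2) = ∫ r in a..b, r0 m ^ 2 * r⁻¹ := by
      apply intervalIntegral.integral_congr
      intro r hr
      rw [Set.uIcc_of_le hab] at hr
      have hr0 : r ≠ 0 := (lt_of_lt_of_le ha hr.1).ne'
      show r * (r0 m ^ 2 / r ^ 2) = r0 m ^ 2 * r⁻¹
      field_simp
    rw [e3, intervalIntegral.integral_const_mul, integral_inv_of_pos ha hb, hba, Real.log_exp]
  rw [h2]
  ring

end Run7.h930.RSI.MASS
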