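import Pool.Agent.Run7.h325.RSI.Stm

/-! # Rough singular integrals: piece PSI -/

set_option autoImplicit false

namespace Run7.h930.RSI.PSI

open MeasureTheory Filter Topology Metric Pool.Agent.Run7.h325.RSI

theorem t_PSI : S_PSI := by
  intro m hm
  have hhp : 0 < hh m := by unfold hh; positivity
  have hc : Continuous (Psi m) := by
    unfold Psi
    exact continuous_const.max (continuous_const.sub ((continuous_infDist_pt _).div_const _))
  have h0 : ∀ u, 0 ≤ Psi m u := fun u => le_max_left _ _
  have h1 : ∀ u, Psi m u ≤ 1 := by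
    intro u
    refine max_le zero_le_one ?_
    have : 0 ≤ infDist u (Dhat m) / hh m := div_nonneg infDist_nonneg hhp.le
    linarith
  refine ⟨hc, h0, h1, BoundedContinuousFunction.ofNormedAddCommGroup (Psi m) hc 1 (fun u => ?_),
    fun u => rfl, BoundedContinuousFunction.norm_ofNormedAddCommGroup_le hc zero_le_one _⟩
  rw [Real.norm_eq_abs, abs_of_nonneg (h0 u)]
  exact h1 u

end Run7.h930.RSI.PSI
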